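import Mathlib
import Pool.Agent.H75.LR.Defs

/-! The derivative of a determinant and the divergence with respect to the density of a
bilinear form. -/

open scoped Topology ContDiff
open Set Filter Matrix Finset Pool.Agent.H75.LR

noncomputable section

set_option maxSynthPendingDepth 3
set_option linter.unusedSectionVars false

namespace Pool.Agent.H93.LR

variable {ι : Type*} [Fintype ι] [DecidableEq ι]

/-- **The derivative of the determinant.** -/
lemma hasFDerivAt_det {E : Type*} [NormedAddCommGroup E] [NormedSpace ℝ E]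
    {A : E → Matrix ι ι ℝ} {A' : ι → ι → E →L[ℝ] ℝ} {z : E}
    (h : ∀ i j, HasFDerivAt (fun z => A z i j) (A' i j) z) :
    HasFDerivAt (fun z => (A z).det) (∑ i, ∑ k, (A z).adjugate i k • A' k i) z := by
  have h1 : HasFDerivAt (fun z => (A z).det)
      (∑ σ : Equiv.Perm ι, ((Equiv.Perm.sign σ : ℤ) : ℝ) •
        ∑ i, (∏ j ∈ univ.erase i, A z (σ j) j) • A' (σ i) i) z := by
    have e : (fun z => (A z).det) = fun z => ∑ σ : Equiv.Perm ι,
        ((Equiv.Perm.sign σ : ℤ) : ℝ) * ∏ i, A z (σ i) i := by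
      ext1 z
      rw [Matrix.det_apply']
    rw [e]
    refine HasFDerivAt.fun_sum fun σ _ => ?_
    exact (HasFDerivAt.finsetProd (u := univ) (g := fun i z => A z (σ i) i)
      fun i _ => h (σ i) i).const_mul _
  convert h1 using 1
  ext v
  simp only [_root_.sum_apply, _root_.smul_apply, smul_eq_mul]
  have h2 : ∀ i, ∑ k, (A z).adjugate i k * A' k i v =
      ((A z).updateCol i (fun k => A' k i v)).det := by
    intro i
    rw [← cramer_apply, cramer_eq_adjugate_mulVec]
    rfl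
  simp only [h2, Matrix.det_apply', Finset.mul_sum]
  rw [Finset.sum_comm]
  refine Finset.sum_congr rfl fun σ _ => Finset.sum_congr rfl fun i _ => ?_
  rw [← Finset.mul_prod_erase univ _ (Finset.mem_univ i)]
  have h3 : ∏ x ∈ univ.erase i, ((A z).updateCol i fun k => A' k i v) (σ x) x =
      ∏ j ∈ univ.erase i, A z (σ j) j := by
    refine Finset.prod_congr rfl fun j hj => ?_
    rw [updateCol_ne (Finset.ne_of_mem_erase hj)]
  rw [h3, updateCol_self]
  ring

lemma hasDerivAt_sqrt_abs {x : ℝ} (hx : x ≠ 0) :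
    HasDerivAt (fun x => √|x|) (√|x| / (2 * x)) x := by
  have h1 := (hasDerivAt_abs hx).sqrt (abs_ne_zero.2 hx)
  convert h1 using 1
  have h2 : √|x| ≠ 0 := Real.sqrt_ne_zero'.2 (abs_pos.2 hx)
  have h3 : √|x| * √|x| = |x| := Real.mul_self_sqrt (abs_nonneg _)
  rw [div_eq_div_iff (by simpa using hx) (by simpa using h2)]
  rcases lt_or_gt_of_ne hx with h | h
  · rw [sign_neg h]
    have : √|x| * (2 * √|x|) = 2 * (√|x| * √|x|) := by ring
    rw [this, h3, abs_of_neg h]
    simp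
  · rw [sign_pos h]
    have : √|x| * (2 * √|x|) = 2 * (√|x| * √|x|) := by ring
    rw [this, h3, abs_of_pos h]
    simp

variable {E : Type*} [NormedAddCommGroup E] [NormedSpace ℝ E] [FiniteDimensional ℝ E]

/-- the matrix of a bilinear form -/
def mat (b : Module.Basis ι ℝ E) (Q : E →L[ℝ] E →L[ℝ] ℝ) : Matrix ι ι ℝ :=
  Matrix.of fun i j => Q (b i) (b j)

lemma mat_apply (b : Module.Basis ι ℝ E) (Q : E →L[ℝ] E →L[ℝ] ℝ) (i j : ι) :
    mat b Q i j = Q (b i) (b j) := rfl

lemma dens_eq (b : Module.Basis ι ℝ E) (Q : E →L[ℝ] E →L[ℝ] ℝ) :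
    dens b Q = √|(mat b Q).det| := rfl

lemma map_basis (b : Module.Basis ι ℝ E) (T : E →ₗ[ℝ] E) (i : ι) :
    T (b i) = ∑ k, LinearMap.toMatrix b b T k i • b k := by
  conv_lhs => rw [← b.sum_repr (T (b i))]
  simp [LinearMap.toMatrix_apply]

lemma mat_left (b : Module.Basis ι ℝ E) (Q : E →L[ℝ] E →L[ℝ] ℝ) (T : E →ₗ[ℝ] E) (i j : ι) :
    Q (T (b i)) (b j) = ((LinearMap.toMatrix b b T)ᵀ * mat b Q) i j := by
  rw [map_basis b T i, Matrix.mul_apply]
  simp [mat_apply]

lemma mat_right (b : Module.Basis ι ℝ E) (Q : E →L[ℝ] E →L[ℝ] ℝ) (T : E →ₗ[ℝ] E) (i j : ι) :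
    Q (b i) (T (b j)) = (mat b Q * LinearMap.toMatrix b b T) i j := by
  rw [map_basis b T j, Matrix.mul_apply]
  simp [mat_apply, mul_comm]

lemma det_mat_ne_zero (b : Module.Basis ι ℝ E) {Q : E →L[ℝ] E →L[ℝ] ℝ}
    (hnd : ∀ u, (∀ w, Q u w = 0) → u = 0) : (mat b Q).det ≠ 0 := by
  intro h0
  obtain ⟨v, hv, h⟩ := Matrix.exists_vecMul_eq_zero_iff.2 h0
  apply hv
  have h1 : ∑ i, v i • b i = 0 := by
    apply hnd
    have h2 : Q (∑ i, v i • b i) = 0 := by
      apply ContinuousLinearMap.coe_injective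
      apply b.ext
      intro j
      have h3 := congrFun h j
      simp only [Matrix.vecMul, dotProduct, mat_apply] at h3
      simpa using h3
    intro w
    rw [h2]; rfl
  have h4 := Fintype.linearIndependent_iff.1 b.linearIndependent v h1
  funext i
  exact h4 i

lemma differentiableAt_dens (b : Module.Basis ι ℝ E) {G : E → E →L[ℝ] E →L[ℝ] ℝ} {z : E}
    (hG : DifferentiableAt ℝ G z) (hnd : ∀ u, (∀ w, G z u w = 0) → u = 0) :
    DifferentiableAt ℝ (fun y => dens b (G y)) z := by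
  have hδ0 : (mat b (G z)).det ≠ 0 := det_mat_ne_zero b hnd
  have hA : ∀ i j, HasFDerivAt (fun y => mat b (G y) i j)
      ((ContinuousLinearMap.apply ℝ ℝ (b j)).comp
        ((ContinuousLinearMap.apply ℝ (E →L[ℝ] ℝ) (b i)).comp (fderiv ℝ G z))) z := fun i j =>
    (ContinuousLinearMap.hasFDerivAt (ContinuousLinearMap.apply ℝ ℝ (b j))).comp z
      ((ContinuousLinearMap.hasFDerivAt
        (ContinuousLinearMap.apply ℝ (E →L[ℝ] ℝ) (b i))).comp z hG.hasFDerivAt)
  exact (HasDerivAt.comp_hasFDerivAt (h₂ := fun x => √|x|) z (hasDerivAt_sqrt_abs hδ0)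
    (hasFDerivAt_det hA)).differentiableAt

/-- **Divergence with respect to the density of a bilinear form.** -/
lemma div_formula (b : Module.Basis ι ℝ E) {G : E → E →L[ℝ] E →L[ℝ] ℝ}
    {G' : E →L[ℝ] E →L[ℝ] E →L[ℝ] ℝ} {X : E → E} {X' : E →L[ℝ] E} {z : E}
    (hG : HasFDerivAt G G' z) (hX : HasFDerivAt X X' z)
    (hnd : ∀ u, (∀ w, G z u w = 0) → u = 0) (T : E →ₗ[ℝ] E)
    (hT : ∀ u w, G' (X z) u w + G z (X' u) w + G z u (X' w) = G z (T u) w) :
    divE (fun y => dens b (G y) • X y) z = dens b (G z) * (LinearMap.trace ℝ E T / 2) := by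
  set M := mat b (G z) with hM
  have hδ0 : M.det ≠ 0 := det_mat_ne_zero b hnd
  let L : ι → ι → E →L[ℝ] ℝ := fun i j => (ContinuousLinearMap.apply ℝ ℝ (b j)).comp
    ((ContinuousLinearMap.apply ℝ (E →L[ℝ] ℝ) (b i)).comp G')
  have hL : ∀ i j v, L i j v = G' v (b i) (b j) := fun i j v => rfl
  have hA : ∀ i j, HasFDerivAt (fun y => mat b (G y) i j) (L i j) z := fun i j =>
    (ContinuousLinearMap.hasFDerivAt (ContinuousLinearMap.apply ℝ ℝ (b j))).comp z
      ((ContinuousLinearMap.hasFDerivAt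
        (ContinuousLinearMap.apply ℝ (E →L[ℝ] ℝ) (b i))).comp z hG)
  have hdet := hasFDerivAt_det hA
  have hr : HasFDerivAt (fun y => dens b (G y)) ((√|M.det| / (2 * M.det)) •
      ∑ i, ∑ k, M.adjugate i k • L k i) z :=
    HasDerivAt.comp_hasFDerivAt (h₂ := fun x => √|x|) z (hasDerivAt_sqrt_abs hδ0) hdet
  have hV : HasFDerivAt (fun y => dens b (G y) • X y) _ z := hr.smul hX
  unfold divE
  rw [hV.fderiv]
  set φ : E →L[ℝ] ℝ := (√|M.det| / (2 * M.det)) • ∑ i, ∑ k, M.adjugate i k • L k i with hφ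
  have e1 : LinearMap.trace ℝ E ((dens b (G z) • X' + φ.smulRight (X z) : E →L[ℝ] E) : E →ₗ[ℝ] E) =
      dens b (G z) * LinearMap.trace ℝ E (X' : E →ₗ[ℝ] E) + φ (X z) := by
    have e2 : ((dens b (G z) • X' + φ.smulRight (X z) : E →L[ℝ] E) : E →ₗ[ℝ] E) =
        dens b (G z) • (X' : E →ₗ[ℝ] E) + (φ : E →ₗ[ℝ] ℝ).smulRight (X z) := rfl
    rw [e2, map_add, map_smul, LinearMap.trace_smulRight, smul_eq_mul]
    rfl
  rw [e1]
  -- the value of `φ`
  set Tm := LinearMap.toMatrix b b T with hTm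
  set Xm := LinearMap.toMatrix b b (X' : E →ₗ[ℝ] E) with hXm
  have e3 : ∀ k i, G' (X z) (b k) (b i) = (Tmᵀ * M - Xmᵀ * M - M * Xm) k i := by
    intro k i
    have h1 := hT (b k) (b i)
    have h2 := mat_left b (G z) T k i
    have h3 := mat_left b (G z) (X' : E →ₗ[ℝ] E) k i
    have h4 := mat_right b (G z) (X' : E →ₗ[ℝ] E) k i
    simp only [ContinuousLinearMap.coe_coe] at h3 h4
    rw [h2, h3, h4] at h1
    simp only [Matrix.sub_apply]
    linarith
  have e4 : φ (X z) = √|M.det| / (2 * M.det) *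
      (M.adjugate * (Tmᵀ * M - Xmᵀ * M - M * Xm)).trace := by
    rw [hφ]
    simp only [_root_.smul_apply, _root_.sum_apply, smul_eq_mul, Matrix.trace,
      Matrix.diag_apply, Matrix.mul_apply, hL]
    congr 1
    refine Finset.sum_congr rfl fun i _ => Finset.sum_congr rfl fun k _ => ?_
    rw [e3 k i]
  have e5 : (M.adjugate * (Tmᵀ * M - Xmᵀ * M - M * Xm)).trace =
      M.det * (Tm.trace - 2 * Xm.trace) := by
    have h1 : ∀ B : Matrix ι ι ℝ, (M.adjugate * (Bᵀ * M)).trace = M.det * B.trace := by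
      intro B
      rw [← Matrix.mul_assoc, Matrix.trace_mul_comm, ← Matrix.mul_assoc, Matrix.mul_adjugate,
        Matrix.smul_mul, Matrix.one_mul, Matrix.trace_smul, Matrix.trace_transpose, smul_eq_mul]
    have h2 : (M.adjugate * (M * Xm)).trace = M.det * Xm.trace := by
      rw [← Matrix.mul_assoc, Matrix.adjugate_mul, Matrix.smul_mul, Matrix.one_mul,
        Matrix.trace_smul, smul_eq_mul]
    rw [Matrix.mul_sub, Matrix.mul_sub, Matrix.trace_sub, Matrix.trace_sub, h1, h1, h2]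
    ring
  have e6 : Tm.trace = LinearMap.trace ℝ E T := (LinearMap.trace_eq_matrix_trace ℝ b T).symm
  have e7 : Xm.trace = LinearMap.trace ℝ E (X' : E →ₗ[ℝ] E) :=
    (LinearMap.trace_eq_matrix_trace ℝ b _).symm
  rw [e4, e5, e6, e7, dens_eq, ← hM]
  field_simp
  ring

/-- the determinant of `1 + t P`, for a projection `P` of rank two -/
lemma det_one_add_smul {P : E →ₗ[ℝ] E} (hP : ∀ u, P (P u) = P u)
    (htr : LinearMap.trace ℝ E P = 2) (t : ℝ) :
    LinearMap.det (LinearMap.id + t • P) = (1 + t) ^ 2 := by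
  have hproj : LinearMap.IsProj (LinearMap.range P) P := by
    refine ⟨fun x => LinearMap.mem_range_self P x, ?_⟩
    rintro x ⟨y, rfl⟩
    exact hP y
  have hrk : Module.finrank ℝ (LinearMap.range P) = 2 := by
    have := LinearMap.IsProj.trace hproj
    rw [htr] at this
    exact_mod_cast this.symm
  have h1 := hproj.eq_conj_prodMap
  have h2 : LinearMap.id + t • P =
      (Submodule.prodEquivOfIsCompl (LinearMap.range P) (LinearMap.ker P) hproj.isCompl).conj
        (LinearMap.prodMap ((1 + t) • LinearMap.id) LinearMap.id) := by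
    have h3 : (LinearMap.prodMap ((1 + t) • LinearMap.id) LinearMap.id :
        (LinearMap.range P × LinearMap.ker P) →ₗ[ℝ] _) =
        LinearMap.id + t • LinearMap.prodMap LinearMap.id 0 := by
      ext x <;> simp [add_smul]
    rw [h3, map_add, map_smul, ← h1]
    rw [LinearEquiv.conj_id]
  rw [h2, LinearEquiv.conj_apply, LinearMap.comp_assoc, LinearMap.det_conj, LinearMap.det_prodMap, LinearMap.det_smul, LinearMap.det_id,
    LinearMap.det_id, hrk]
  ring

/-- density of a twisted form -/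
lemma dens_comp (b : Module.Basis ι ℝ E) (Q : E →L[ℝ] E →L[ℝ] ℝ) (T : E →L[ℝ] E) :
    dens b (Q.comp T) = √|LinearMap.det (T : E →ₗ[ℝ] E)| * dens b Q := by
  have h1 : mat b (Q.comp T) = (LinearMap.toMatrix b b (T : E →ₗ[ℝ] E))ᵀ * mat b Q := by
    ext i j
    rw [← mat_left]
    rfl
  rw [dens_eq, dens_eq, h1, Matrix.det_mul, Matrix.det_transpose, LinearMap.det_toMatrix, abs_mul,
    Real.sqrt_mul (abs_nonneg _)]

end Pool.Agent.H93.LR
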