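import Mathlib
import Pool.Agent.H75.LR.Stm
import Pool.Agent.H93.LR.Jac

/-! The module LD: two divergences. -/

open scoped Topology ContDiff
open Set Filter Finset Pool.Agent.H75.LR

noncomputable section

set_option maxSynthPendingDepth 3
set_option linter.unusedSectionVars false

namespace Pool.Agent.H93.LR

variable {E : Type*} [NormedAddCommGroup E] [NormedSpace ℝ E] [FiniteDimensional ℝ E]

/-- a nondegenerate bilinear form represents every linear form -/
lemma exists_repr {Q : E →L[ℝ] E →L[ℝ] ℝ} (hnd : ∀ u, (∀ w, Q u w = 0) → u = 0)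
    (φ : E →L[ℝ] ℝ) : ∃ y, ∀ w, Q y w = φ w := by
  have h1 : Function.Injective (Q : E →ₗ[ℝ] E →L[ℝ] ℝ) := by
    rw [← LinearMap.ker_eq_bot, LinearMap.ker_eq_bot']
    intro u hu
    apply hnd
    intro w
    have : Q u = 0 := hu
    rw [this]; rfl
  have h2 : Module.finrank ℝ E = Module.finrank ℝ (E →L[ℝ] ℝ) := by
    rw [← (LinearMap.toContinuousLinearMap (𝕜 := ℝ) (E := E) (F' := ℝ)).finrank_eq]
    exact (Subspace.dual_finrank_eq (K := ℝ) (V := E)).symm
  have h3 := (LinearMap.injective_iff_surjective_of_finrank_eq_finrank h2).1 h1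
  obtain ⟨y, hy⟩ := h3 φ
  refine ⟨y, fun w => ?_⟩
  have : Q y = φ := hy
  rw [this]

variable {ι : Type*} [Fintype ι] [DecidableEq ι]

/-- the form `d (a + s θ) + a ⊗ a` -/
def GG (a θ : E → E →L[ℝ] ℝ) (s : ℝ) (y : E) : E →L[ℝ] E →L[ℝ] ℝ :=
  fderiv ℝ (fun y => a y + s • θ y) y - (fderiv ℝ (fun y => a y + s • θ y) y).flip +
    ContinuousLinearMap.smulRight (a y) (a y)

lemma GG_apply' (a θ : E → E →L[ℝ] ℝ) (s : ℝ) (y u w : E) :
    GG a θ s y u w = fderiv ℝ (fun y => a y + s • θ y) y u w -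
      fderiv ℝ (fun y => a y + s • θ y) y w u + a y u * a y w := by
  simp [GG]

lemma GG_apply {a θ : E → E →L[ℝ] ℝ} (s : ℝ) {y : E} (ha : DifferentiableAt ℝ a y)
    (hθ : DifferentiableAt ℝ θ y) (u w : E) :
    GG a θ s y u w = dd a y u w + s * dd θ y u w + a y u * a y w := by
  have h1 : fderiv ℝ (fun y => a y + s • θ y) y = fderiv ℝ a y + s • fderiv ℝ θ y :=
    (ha.hasFDerivAt.add (hθ.hasFDerivAt.const_smul s)).fderiv
  rw [GG_apply', h1]
  simp only [_root_.add_apply, _root_.smul_apply, smul_eq_mul, dd]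
  ring

section main

variable {U : Set E} {a : E → E →L[ℝ] ℝ} {R : E → E} {P : E → E →L[ℝ] E} {θ : E → E →L[ℝ] ℝ}
  {c : E → ℝ} {X : E → E} {n : ℕ}

/-- the field `X_s` -/
def XX (P : E → E →L[ℝ] E) (c : E → ℝ) (X : E → E) (s : ℝ) (y : E) : E :=
  (1 + s * c y)⁻¹ • P y (X y) + (X y - P y (X y))

lemma main_eq (hn : Module.finrank ℝ E = 2 * n + 1) (b : Module.Basis ι ℝ E) (hU : IsOpen U)
    (ha : ContDiffOn ℝ ∞ a U) (hR : ContDiffOn ℝ ∞ R U)
    (haR : ∀ z ∈ U, a z (R z) = 1) (hωR : ∀ z ∈ U, ∀ w, dd a z (R z) w = 0)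
    (hnd : ∀ z ∈ U, ∀ u, a z u = 0 → (∀ w, a z w = 0 → dd a z u w = 0) → u = 0)
    (hP : ContDiffOn ℝ ∞ P U) (hPP : ∀ z ∈ U, ∀ u, P z (P z u) = P z u)
    (htr : ∀ z ∈ U, LinearMap.trace ℝ E (P z : E →ₗ[ℝ] E) = 2) (hPR : ∀ z ∈ U, P z (R z) = 0)
    (haP : ∀ z ∈ U, ∀ u, a z (P z u) = 0)
    (hωP : ∀ z ∈ U, ∀ u w, dd a z (P z u) w = dd a z u (P z w))
    (hθ : ContDiffOn ℝ ∞ θ U) (hc : ContDiffOn ℝ ∞ c U)
    (hdθ : ∀ z ∈ U, ∀ u w, dd θ z u w = c z * dd a z (P z u) w)
    (hX : ContDiffOn ℝ ∞ X U) (haX : ∀ z ∈ U, a z (X z) = 0)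
    (hωX : ∀ z ∈ U, ∀ w, dd a z (X z) w = θ z w - θ z (R z) * a z w)
    {z : E} (hz : z ∈ U) {s : ℝ} (hs : 0 < 1 + s * c z) :
    divE (fun y => dens b (BB a y) • X y) z +
      s * divE (fun y => dens b (BB a y) • (c y • (X y - P y (X y)))) z =
    dens b (BB a z) * (c z - θ z (R z) * (((n : ℝ) - 1) * (1 + s * c z) + 1)) := by
  have hUz : U ∈ 𝓝 z := hU.mem_nhds hz
  have had : ∀ y ∈ U, DifferentiableAt ℝ a y := fun y hy =>
    (ha.contDiffAt (hU.mem_nhds hy)).differentiableAt (by simp)
  have hθd : ∀ y ∈ U, DifferentiableAt ℝ θ y := fun y hy =>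
    (hθ.contDiffAt (hU.mem_nhds hy)).differentiableAt (by simp)
  have hcd : DifferentiableAt ℝ c z := (hc.contDiffAt hUz).differentiableAt (by simp)
  have hRd : DifferentiableAt ℝ R z := (hR.contDiffAt hUz).differentiableAt (by simp)
  have hPd : DifferentiableAt ℝ P z := (hP.contDiffAt hUz).differentiableAt (by simp)
  have hXd : DifferentiableAt ℝ X z := (hX.contDiffAt hUz).differentiableAt (by simp)
  -- the neighbourhood where `1 + s c > 0`
  have hpos : ∀ᶠ y in 𝓝 z, y ∈ U ∧ 0 < 1 + s * c y := by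
    have h1 : ContinuousAt (fun y => 1 + s * c y) z :=
      continuousAt_const.add (continuousAt_const.mul hcd.continuousAt)
    exact Filter.Eventually.and hUz (h1.eventually (lt_mem_nhds hs))
  -- pointwise values
  have hskew : ∀ y u w, dd a y u w = - dd a y w u := fun y u w => by simp only [dd]; ring
  have hGG : ∀ y ∈ U, ∀ u w, GG a θ s y u w =
      dd a y u w + s * (c y * dd a y (P y u) w) + a y u * a y w := by
    intro y hy u w
    rw [GG_apply s (had y hy) (hθd y hy), hdθ y hy]
  have hadd : ∀ y u v w, dd a y (u + v) w = dd a y u w + dd a y v w := by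
    intro y u v w; simp only [dd, map_add, _root_.add_apply]; ring
  have hsub : ∀ y u v w, dd a y (u - v) w = dd a y u w - dd a y v w := by
    intro y u v w; simp only [dd, map_sub, _root_.sub_apply]; ring
  have hsm : ∀ y (r : ℝ) u w, dd a y (r • u) w = r * dd a y u w := by
    intro y r u w; simp only [dd, map_smul, _root_.smul_apply, smul_eq_mul]; ring
  have hGcomp : ∀ y ∈ U, GG a θ s y =
      (BB a y).comp (ContinuousLinearMap.id ℝ E + (s * c y) • P y) := by
    intro y hy
    ext u w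
    rw [hGG y hy]
    show _ = BB a y (u + (s * c y) • P y u) w
    rw [BB_apply, hadd, hsm, map_add, map_smul, haP y hy]
    simp only [smul_eq_mul]
    ring
  have hdens : ∀ y, y ∈ U → 0 < 1 + s * c y →
      dens b (GG a θ s y) = (1 + s * c y) * dens b (BB a y) := by
    intro y hy hpy
    rw [hGcomp y hy, dens_comp]
    congr 1
    have h1 := det_one_add_smul (P := (P y : E →ₗ[ℝ] E)) (hPP y hy) (htr y hy) (s * c y)
    have h2 : ((ContinuousLinearMap.id ℝ E + (s * c y) • P y : E →L[ℝ] E) : E →ₗ[ℝ] E) =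
        LinearMap.id + (s * c y) • (P y : E →ₗ[ℝ] E) := rfl
    rw [h2, h1, abs_of_nonneg (sq_nonneg _), Real.sqrt_sq hpy.le]
  -- the field
  set x := XX P c X s z with hx
  have hPXX : ∀ y ∈ U, P y (XX P c X s y) = (1 + s * c y)⁻¹ • P y (X y) := by
    intro y hy
    rw [XX, map_add, map_sub, map_smul, hPP y hy, sub_self, add_zero]
  have hXX : ∀ y, y ∈ U → 0 < 1 + s * c y → ∀ w,
      GG a θ s y (XX P c X s y) w = θ y w - θ y (R y) * a y w := by
    intro y hy hpy w
    have h1 : XX P c X s y + (s * c y) • P y (XX P c X s y) = X y := by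
      rw [hPXX y hy, XX]
      have h2 : (1 + s * c y)⁻¹ + s * c y * (1 + s * c y)⁻¹ = 1 := by
        field_simp
      have h3 : (1 + s * c y)⁻¹ • P y (X y) + (s * c y) • (1 + s * c y)⁻¹ • P y (X y) =
          P y (X y) := by
        rw [smul_smul, ← add_smul, h2, one_smul]
      calc (1 + s * c y)⁻¹ • P y (X y) + (X y - P y (X y)) +
            (s * c y) • (1 + s * c y)⁻¹ • P y (X y) =
          ((1 + s * c y)⁻¹ • P y (X y) + (s * c y) • (1 + s * c y)⁻¹ • P y (X y)) +
            (X y - P y (X y)) := by abel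
        _ = X y := by rw [h3]; abel
    rw [hGcomp y hy]
    show BB a y (XX P c X s y + (s * c y) • P y (XX P c X s y)) w = _
    rw [h1, BB_apply, haX y hy, hωX y hy]
    ring
  have haXX : ∀ y ∈ U, a y (XX P c X s y) = 0 := by
    intro y hy
    rw [XX, map_add, map_sub, map_smul, haP y hy, haX y hy]
    simp
  -- derivatives
  set a' := fderiv ℝ a z with ha'
  have ha1 : HasFDerivAt a a' z := (had z hz).hasFDerivAt
  set θ' := fderiv ℝ θ z with hθ'
  have hθ1 : HasFDerivAt θ θ' z := (hθd z hz).hasFDerivAt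
  have hXXd : DifferentiableAt ℝ (XX P c X s) z := by
    have h1 : DifferentiableAt ℝ (fun y => P y (X y)) z := hPd.clm_apply hXd
    have h2 : DifferentiableAt ℝ (fun y => (1 + s * c y)⁻¹) z :=
      ((differentiableAt_const _).add ((differentiableAt_const _).mul hcd)).inv hs.ne'
    exact (h2.smul h1).add (hXd.sub h1)
  set X' := fderiv ℝ (XX P c X s) z with hX'
  have hX1 : HasFDerivAt (XX P c X s) X' z := hXXd.hasFDerivAt
  have hα : ContDiffOn ℝ ∞ (fun y => a y + s • θ y) U := ha.add (hθ.const_smul s)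
  have hDα : ContDiffOn ℝ ∞ (fderiv ℝ (fun y => a y + s • θ y)) U :=
    hα.fderiv_of_isOpen hU (by simp)
  have hDαd : DifferentiableAt ℝ (fderiv ℝ (fun y => a y + s • θ y)) z :=
    (hDα.contDiffAt hUz).differentiableAt (by simp)
  set D2 := fderiv ℝ (fderiv ℝ (fun y => a y + s • θ y)) z with hD2
  have hD2s : ∀ u v, D2 u v = D2 v u := by
    have h1 : ContDiffAt ℝ ∞ (fun y => a y + s • θ y) z := hα.contDiffAt hUz
    have h2 := h1.isSymmSndFDerivAt (by
      simp only [minSmoothness_of_isRCLikeNormedField]; exact ENat.LEInfty.out)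
    intro u v
    exact h2 u v
  have hGd : DifferentiableAt ℝ (GG a θ s) z := by
    have h1 : DifferentiableAt ℝ (fun y => (fderiv ℝ (fun y => a y + s • θ y) y).flip) z :=
      ((ContinuousLinearMap.flipₗᵢ ℝ E E ℝ).toContinuousLinearEquiv.differentiableAt).comp z hDαd
    have h2 : DifferentiableAt ℝ (fun y => ContinuousLinearMap.smulRight (a y) (a y)) z := by
      have h3 : DifferentiableAt ℝ
          (fun y => ContinuousLinearMap.smulRightL ℝ E (E →L[ℝ] ℝ) (a y) (a y)) z :=
        DifferentiableAt.clm_apply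
          ((ContinuousLinearMap.smulRightL ℝ E (E →L[ℝ] ℝ)).differentiableAt.comp z (had z hz))
          (had z hz)
      exact h3
    exact (hDαd.sub h1).add h2
  set G' := fderiv ℝ (GG a θ s) z with hG'
  have hG1 : HasFDerivAt (GG a θ s) G' z := hGd.hasFDerivAt
  have hG'v : ∀ v u w, G' v u w = D2 v u w - D2 v w u + (a' v u * a z w + a z u * a' v w) := by
    intro v u w
    have h1 : HasFDerivAt (fun y => GG a θ s y u w)
        ((ContinuousLinearMap.apply ℝ ℝ w).comp
          ((ContinuousLinearMap.apply ℝ (E →L[ℝ] ℝ) u).comp G')) z :=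
      (ContinuousLinearMap.hasFDerivAt (ContinuousLinearMap.apply ℝ ℝ w)).comp z
        ((ContinuousLinearMap.hasFDerivAt
          (ContinuousLinearMap.apply ℝ (E →L[ℝ] ℝ) u)).comp z hG1)
    have hD : ∀ u w, HasFDerivAt (fun y => fderiv ℝ (fun y => a y + s • θ y) y u w)
        ((ContinuousLinearMap.apply ℝ ℝ w).comp
          ((ContinuousLinearMap.apply ℝ (E →L[ℝ] ℝ) u).comp D2)) z := fun u w =>
      (ContinuousLinearMap.hasFDerivAt (ContinuousLinearMap.apply ℝ ℝ w)).comp z
        ((ContinuousLinearMap.hasFDerivAt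
          (ContinuousLinearMap.apply ℝ (E →L[ℝ] ℝ) u)).comp z hDαd.hasFDerivAt)
    have hA : ∀ u, HasFDerivAt (fun y => a y u)
        ((ContinuousLinearMap.apply ℝ ℝ u).comp a') z := fun u =>
      (ContinuousLinearMap.hasFDerivAt (ContinuousLinearMap.apply ℝ ℝ u)).comp z ha1
    have h2 := (((hD u w).sub (hD w u)).add ((hA u).mul (hA w)))
    have h3 : (fun y => GG a θ s y u w) = fun y =>
        fderiv ℝ (fun y => a y + s • θ y) y u w - fderiv ℝ (fun y => a y + s • θ y) y w u +
          a y u * a y w := by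
      ext1 y
      exact GG_apply' a θ s y u w
    rw [h3] at h1
    have h4 := DFunLike.congr_fun (h1.unique h2) v
    have h5 : G' v u w = D2 v u w - D2 v w u + (a z u * a' v w + a z w * a' v u) := h4
    rw [h5]; ring
  -- derivative of the identities
  have hh : HasFDerivAt (fun y => θ y (R y))
      (fderiv ℝ (fun y => θ y (R y)) z) z := ((hθd z hz).clm_apply hRd).hasFDerivAt
  set h' := fderiv ℝ (fun y => θ y (R y)) z with hh'
  have id1 : ∀ u w, G' u x w + GG a θ s z (X' u) w =
      θ' u w - (h' u * a z w + θ z (R z) * a' u w) := by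
    intro u w
    have h1 : HasFDerivAt (fun y => GG a θ s y (XX P c X s y))
        ((GG a θ s z).comp X' + G'.flip x) z := hG1.clm_apply hX1
    have h2 : HasFDerivAt (fun y => GG a θ s y (XX P c X s y) w)
        ((ContinuousLinearMap.apply ℝ ℝ w).comp ((GG a θ s z).comp X' + G'.flip x)) z :=
      (ContinuousLinearMap.hasFDerivAt (ContinuousLinearMap.apply ℝ ℝ w)).comp z h1
    have h3 : HasFDerivAt (fun y => θ y w - θ y (R y) * a y w)
        ((ContinuousLinearMap.apply ℝ ℝ w).comp θ' -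
          (θ z (R z) • (ContinuousLinearMap.apply ℝ ℝ w).comp a' + a z w • h')) z :=
      HasFDerivAt.sub ((ContinuousLinearMap.hasFDerivAt (ContinuousLinearMap.apply ℝ ℝ w)).comp z hθ1)
        (hh.mul ((ContinuousLinearMap.hasFDerivAt (ContinuousLinearMap.apply ℝ ℝ w)).comp z ha1))
    have h4 : (fun y => GG a θ s y (XX P c X s y) w) =ᶠ[𝓝 z]
        fun y => θ y w - θ y (R y) * a y w := by
      filter_upwards [hpos] with y hy
      exact hXX y hy.1 hy.2 w
    have h5 := DFunLike.congr_fun ((h2.congr_of_eventuallyEq h4.symm).unique h3) u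
    have h6 : GG a θ s z (X' u) w + G' u x w = θ' u w - (θ z (R z) * a' u w + a z w * h' u) := h5
    linarith
  have id2 : ∀ w, a' w x + a z (X' w) = 0 := by
    intro w
    have h1 : HasFDerivAt (fun y => a y (XX P c X s y)) ((a z).comp X' + a'.flip x) z :=
      ha1.clm_apply hX1
    have h2 : (fun y => a y (XX P c X s y)) =ᶠ[𝓝 z] fun _ => (0 : ℝ) := by
      filter_upwards [hUz] with y hy
      exact haXX y hy
    have h3 := DFunLike.congr_fun
      ((h1.congr_of_eventuallyEq h2.symm).unique (hasFDerivAt_const (0 : ℝ) z)) w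
    have h4 : a z (X' w) + a' w x = 0 := h3
    linarith
  have hGskew : ∀ u v, GG a θ s z u v = - GG a θ s z v u + 2 * (a z u * a z v) := by
    intro u v
    rw [GG_apply', GG_apply' a θ s z v u]; ring
  have hax : a z x = 0 := haXX z hz
  -- the linear form `β = ω (x, ·)`
  set β : E →L[ℝ] ℝ := a' x - a'.flip x with hβ
  have hβv : ∀ w, β w = dd a z x w := fun w => rfl
  have hdda : ∀ u w, dd a z u w = a' u w - a' w u := fun u w => rfl
  have hddθ : ∀ u w, θ' u w - θ' w u = c z * dd a z (P z u) w := fun u w => hdθ z hz u w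
  have hL : ∀ u w, G' x u w + GG a θ s z (X' u) w + GG a θ s z u (X' w) =
      c z * dd a z (P z u) w - θ z (R z) * dd a z u w - h' u * a z w + a z u * h' w +
        β u * a z w + a z u * β w := by
    intro u w
    have e1 := id1 u w
    have e2 := id1 w u
    have e3 := hGskew u (X' w)
    have e4 := id2 w
    rw [hG'v] at e1 e2 ⊢
    have s1 := congrArg (fun f => f w) (hD2s x u)
    have s2 := congrArg (fun f => f u) (hD2s x w)
    have s3 := congrArg (fun f => f x) (hD2s u w)
    have e5 := hddθ u w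
    rw [hβv u, hβv w, hdda x u, hdda x w, hdda u w, ← e5]
    have e6 : a z (X' w) = - a' w x := by linarith
    rw [e6] at e3
    rw [hax] at e1 e2
    linear_combination s1 - s2 + s3 + e1 - e2 + e3
  -- nondegeneracy
  have hBnd : ∀ u, (∀ w, BB a z u w = 0) → u = 0 := by
    intro u hu
    have h1 : a z u = 0 := by
      have := hu (R z)
      rw [BB_apply, hskew, hωR z hz, haR z hz] at this
      linarith
    refine hnd z hz u h1 fun w _ => ?_
    have := hu w
    rw [BB_apply, h1] at this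
    linarith
  have hGnd : ∀ u, (∀ w, GG a θ s z u w = 0) → u = 0 := by
    intro u hu
    have h1 : u + (s * c z) • P z u = 0 := by
      apply hBnd
      intro w
      have := hu w
      rw [hGcomp z hz] at this
      exact this
    have h2 : (1 + s * c z) • P z u = 0 := by
      have := congrArg (P z) h1
      rw [map_add, map_smul, hPP z hz, map_zero] at this
      rw [add_smul, one_smul]; exact this
    have h3 : P z u = 0 := (smul_eq_zero.1 h2).resolve_left hs.ne'
    rw [h3, smul_zero, add_zero] at h1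
    exact h1
  obtain ⟨y₀, hy₀⟩ := exists_repr hGnd (h' + β)
  -- the endomorphism
  set k : ℝ := θ z (R z) with hk
  set r : ℝ := 1 + s * c z with hr
  have hr0 : r ≠ 0 := hs.ne'
  let T : E →ₗ[ℝ] E := (c z / r) • (P z : E →ₗ[ℝ] E) -
    k • (r⁻¹ • (P z : E →ₗ[ℝ] E) + (LinearMap.id - (P z : E →ₗ[ℝ] E)) -
      (a z : E →ₗ[ℝ] ℝ).smulRight (R z)) - (h' : E →ₗ[ℝ] ℝ).smulRight (R z) +
    (β : E →ₗ[ℝ] ℝ).smulRight (R z) + (a z : E →ₗ[ℝ] ℝ).smulRight y₀
  have hGP : ∀ u w, GG a θ s z (P z u) w = r * dd a z (P z u) w := by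
    intro u w
    rw [hGG z hz, hPP z hz, haP z hz, hr]; ring
  have hGR : ∀ w, GG a θ s z (R z) w = a z w := by
    intro w
    rw [hGG z hz, hPR z hz, hωR z hz, haR z hz]
    simp [dd]
  have hTG : ∀ u w, G' (XX P c X s z) u w + GG a θ s z (X' u) w + GG a θ s z u (X' w) =
      GG a θ s z (T u) w := by
    intro u w
    rw [← hx, hL u w]
    have hTu : T u = (c z / r) • P z u - k • (r⁻¹ • P z u + (u - P z u) - a z u • R z) -
      h' u • R z + β u • R z + a z u • y₀ := rfl
    rw [hTu]
    simp only [map_add, map_sub, map_smul, _root_.add_apply, _root_.sub_apply,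
      _root_.smul_apply, smul_eq_mul, hGP, hGR, hy₀]
    rw [hGG z hz u w]
    field_simp
    ring
  have key := div_formula b hG1 hX1 hGnd T hTG
  have htrT : LinearMap.trace ℝ E T = 2 * c z / r - k * (2 / r + 2 * n - 2) := by
    have h1 : a z y₀ = h' (R z) + β (R z) := by
      have := hy₀ (R z)
      rw [hGG z hz, hskew, hωR z hz, hskew z (P z y₀), hωR z hz, haR z hz] at this
      simpa using this
    have h2 : β (R z) = 0 := by
      rw [hβv, hskew, hωR z hz, neg_zero]
    show LinearMap.trace ℝ E ((c z / r) • (P z : E →ₗ[ℝ] E) -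
      k • (r⁻¹ • (P z : E →ₗ[ℝ] E) + (LinearMap.id - (P z : E →ₗ[ℝ] E)) -
      (a z : E →ₗ[ℝ] ℝ).smulRight (R z)) - (h' : E →ₗ[ℝ] ℝ).smulRight (R z) +
      (β : E →ₗ[ℝ] ℝ).smulRight (R z) + (a z : E →ₗ[ℝ] ℝ).smulRight y₀) = _
    simp only [map_add, map_sub, map_smul, LinearMap.trace_smulRight, htr z hz,
      LinearMap.trace_id, smul_eq_mul, ContinuousLinearMap.coe_coe, hn, haR z hz, h1, h2]
    push_cast
    field_simp
    ring
  rw [htrT] at key
  -- the left-hand side
  have hBd : DifferentiableAt ℝ (BB a) z := by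
    have hDad : DifferentiableAt ℝ (fderiv ℝ a) z :=
      ((ha.fderiv_of_isOpen hU (m := ∞) (by simp)).contDiffAt hUz).differentiableAt (by simp)
    have h1 : DifferentiableAt ℝ (fun y => (fderiv ℝ a y).flip) z :=
      ((ContinuousLinearMap.flipₗᵢ ℝ E E ℝ).toContinuousLinearEquiv.differentiableAt).comp z hDad
    have h2 : DifferentiableAt ℝ (fun y => ContinuousLinearMap.smulRight (a y) (a y)) z := by
      have h3 : DifferentiableAt ℝ
          (fun y => ContinuousLinearMap.smulRightL ℝ E (E →L[ℝ] ℝ) (a y) (a y)) z :=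
        DifferentiableAt.clm_apply
          ((ContinuousLinearMap.smulRightL ℝ E (E →L[ℝ] ℝ)).differentiableAt.comp z (had z hz))
          (had z hz)
      exact h3
    exact (hDad.sub h1).add h2
  have hdensd : DifferentiableAt ℝ (fun y => dens b (BB a y)) z :=
    differentiableAt_dens b hBd hBnd
  have hF1 : DifferentiableAt ℝ (fun y => dens b (BB a y) • X y) z := hdensd.smul hXd
  have hF2 : DifferentiableAt ℝ (fun y => dens b (BB a y) • (c y • (X y - P y (X y)))) z :=
    hdensd.smul (hcd.smul (hXd.sub (hPd.clm_apply hXd)))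
  have hsum : (fun y => dens b (GG a θ s y) • XX P c X s y) =ᶠ[𝓝 z]
      fun y => dens b (BB a y) • X y + s • (dens b (BB a y) • (c y • (X y - P y (X y)))) := by
    filter_upwards [hpos] with y hy
    rw [hdens y hy.1 hy.2, XX]
    have hy0 : (1 + s * c y) ≠ 0 := hy.2.ne'
    have h1 : (1 + s * c y) • ((1 + s * c y)⁻¹ • P y (X y) + (X y - P y (X y))) =
        X y + s • (c y • (X y - P y (X y))) := by
      rw [smul_add, smul_smul, mul_inv_cancel₀ hy0, one_smul, add_smul, one_smul, mul_smul]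
      abel
    rw [mul_comm, mul_smul, h1, smul_add, smul_comm s (dens b (BB a y))]
  have hdiv : divE (fun y => dens b (GG a θ s y) • XX P c X s y) z =
      divE (fun y => dens b (BB a y) • X y) z +
      s * divE (fun y => dens b (BB a y) • (c y • (X y - P y (X y)))) z := by
    unfold divE
    have h1 : fderiv ℝ (fun y => dens b (GG a θ s y) • XX P c X s y) z =
        fderiv ℝ (fun y => dens b (BB a y) • X y) z +
          s • fderiv ℝ (fun y => dens b (BB a y) • (c y • (X y - P y (X y)))) z := by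
      rw [hsum.fderiv_eq]
      exact (hF1.hasFDerivAt.add (hF2.hasFDerivAt.const_smul s)).fderiv
    rw [h1]
    have h2 : ∀ A B : E →L[ℝ] E, ((A + s • B : E →L[ℝ] E) : E →ₗ[ℝ] E) =
        (A : E →ₗ[ℝ] E) + s • (B : E →ₗ[ℝ] E) := fun A B => rfl
    rw [h2, map_add, map_smul, smul_eq_mul]
  rw [← hdiv, key, hdens z hz hs, ← hr]
  field_simp
  ring

end main

/-- **Module LD.** -/
theorem ld : S_LD := by
  intro E _ _ _ n hn ι _ _ b U hU a ha R hR haR hωR hnd P hP hPP htr hPR haP hωP θ hθ c hc hdθ X hX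
    haX hωX z hz
  have h0 := main_eq hn b hU ha hR haR hωR hnd hP hPP htr hPR haP hωP hθ hc hdθ hX haX hωX hz
    (s := 0) (by norm_num)
  have hD1 : divE (fun y => dens b (BB a y) • X y) z = dens b (BB a z) * (c z - n * θ z (R z)) := by
    rw [zero_mul, add_zero] at h0
    rw [h0]; ring
  refine ⟨hD1, ?_⟩
  set s : ℝ := 1 / (2 * (|c z| + 1)) with hs
  have hc1 : 0 < |c z| + 1 := by positivity
  have hs0 : 0 < s := by positivity
  have hs1 : 0 < 1 + s * c z := by
    have h1 : |s * c z| ≤ 1 / 2 := by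
      rw [abs_mul, abs_of_pos hs0, hs]
      rw [div_mul_eq_mul_div, one_mul, div_le_div_iff₀ (by positivity) (by norm_num)]
      have := abs_nonneg (c z)
      linarith
    have h2 := (abs_le.1 h1).1
    linarith
  have h1 := main_eq hn b hU ha hR haR hωR hnd hP hPP htr hPR haP hωP hθ hc hdθ hX haX hωX hz
    (s := s) hs1
  rw [hD1] at h1
  have h2 : s * divE (fun y => dens b (BB a y) • (c y • (X y - P y (X y)))) z =
      s * (- (dens b (BB a z) * (((n : ℝ) - 1) * c z * θ z (R z)))) := by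
    linear_combination h1
  exact mul_left_cancel₀ hs0.ne' h2

end Pool.Agent.H93.LR
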